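import Mathlib
set_option autoImplicit false
namespace Pool.Agent.H.MP_5de00f_gt
open Set Filter Topology Real

noncomputable def b (x : ℝ) : ℝ := smoothTransition (-sin (2 * π * x))

lemma b_smooth : ContDiff ℝ 1 b := by
  unfold b
  exact (smoothTransition.contDiff (n := 1)).comp (by fun_prop)

lemma b_per : Function.Periodic b 1 := by
  intro x; unfold b
  rw [mul_add, mul_one, sin_add_two_pi]

lemma b_int (x : ℝ) (m : ℤ) : b (m + x) = b x := by
  have := (b_per.int_mul m) x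
  rw [mul_one] at this
  rw [add_comm]; exact this

lemma b_zero (x : ℝ) (h0 : 0 ≤ x) (h1 : x ≤ 1 / 2) : b x = 0 := by
  unfold b
  apply smoothTransition.zero_of_nonpos
  have : 0 ≤ sin (2 * π * x) :=
    sin_nonneg_of_nonneg_of_le_pi (by positivity) (by nlinarith [pi_pos])
  linarith

lemma b_one : b (3 / 4) = 1 := by
  unfold b
  have : 2 * π * (3 / 4) = π / 2 + π := by ring
  rw [this, sin_add_pi, sin_pi_div_two]
  simp

lemma db_bdd : ∃ K : ℝ, ∀ x, ‖deriv b x‖ ≤ K := by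
  have hc : Continuous (deriv b) := b_smooth.continuous_deriv le_rfl
  have hp : Function.Periodic (deriv b) 1 := by
    intro x
    have : (fun y => b (y + 1)) = b := funext b_per
    rw [← deriv_comp_add_const, this]
  have := (hp.isBounded_of_continuous one_ne_zero hc).exists_norm_le
  obtain ⟨K, hK⟩ := this
  exact ⟨K, fun x => hK _ ⟨x, rfl⟩⟩

noncomputable def h (x : ℝ) : ℝ := ∑' n : ℕ, (1 / 4 : ℝ) ^ n * b (3 ^ n * x)

lemma h_summ (x : ℝ) : Summable fun n : ℕ => (1 / 4 : ℝ) ^ n * b (3 ^ n * x) := by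
  refine Summable.of_nonneg_of_le (fun n => mul_nonneg (by positivity) (smoothTransition.nonneg _))
    (fun n => ?_) (summable_geometric_of_lt_one (r := 1 / 4) (by norm_num) (by norm_num))
  exact mul_le_of_le_one_right (by positivity) (smoothTransition.le_one _)

lemma h_smooth : ContDiff ℝ 1 h := by
  obtain ⟨K, hK⟩ := db_bdd
  have hs : Summable fun n : ℕ => (3 / 4 : ℝ) ^ n * K :=
    (summable_geometric_of_lt_one (by norm_num) (by norm_num)).mul_right K
  have hd : ∀ (n : ℕ) (y : ℝ), HasDerivAt (fun x => (1 / 4 : ℝ) ^ n * b (3 ^ n * x))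
      ((3 / 4 : ℝ) ^ n * deriv b (3 ^ n * y)) y := by
    intro n y
    have h1 : HasDerivAt b (deriv b (3 ^ n * y)) (3 ^ n * y) :=
      (b_smooth.differentiable one_ne_zero _).hasDerivAt
    have h2 : HasDerivAt (fun x : ℝ => 3 ^ n * x) (3 ^ n) y := by
      simpa using (hasDerivAt_id y).const_mul ((3 : ℝ) ^ n)
    have := (h1.comp y h2).const_mul ((1 / 4 : ℝ) ^ n)
    refine this.congr_deriv ?_
    rw [show (3 / 4 : ℝ) = 1 / 4 * 3 by norm_num, mul_pow]; ring
  have hb : ∀ (n : ℕ) (y : ℝ), ‖(3 / 4 : ℝ) ^ n * deriv b (3 ^ n * y)‖ ≤ (3 / 4 : ℝ) ^ n * K := by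
    intro n y
    rw [norm_mul, Real.norm_of_nonneg (by positivity)]
    exact mul_le_mul_of_nonneg_left (hK _) (by positivity)
  have hD : ∀ y, HasDerivAt h (∑' n : ℕ, (3 / 4 : ℝ) ^ n * deriv b (3 ^ n * y)) y :=
    fun y => hasDerivAt_tsum hs hd hb (h_summ 0) y
  rw [contDiff_one_iff_deriv]
  refine ⟨fun y => (hD y).differentiableAt, ?_⟩
  have : deriv h = fun y => ∑' n : ℕ, (3 / 4 : ℝ) ^ n * deriv b (3 ^ n * y) :=
    funext fun y => (hD y).deriv
  rw [this]
  have hc : Continuous (deriv b) := b_smooth.continuous_deriv le_rfl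
  exact continuous_tsum (fun n => by fun_prop) hs hb

lemma cf_bd (f : ℕ → Bool) : 0 ≤ Cardinal.cantorFunction (1 / 3) f ∧
    Cardinal.cantorFunction (1 / 3) f ≤ 3 / 2 := by
  constructor
  · exact tsum_nonneg fun n => Cardinal.cantorFunctionAux_nonneg (by norm_num)
  · have h1 := Cardinal.cantorFunction_le (c := 1 / 3) (f := f) (g := fun _ => true)
      (by norm_num) (by norm_num) (fun _ _ => rfl)
    have h2 : Cardinal.cantorFunction (1 / 3) (fun _ => true) = 3 / 2 := by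
      unfold Cardinal.cantorFunction
      simp only [Cardinal.cantorFunctionAux, cond_true]
      rw [tsum_geometric_of_lt_one (by norm_num) (by norm_num)]; norm_num
    linarith

lemma cf_int (n : ℕ) : ∀ f : ℕ → Bool, ∃ (m : ℤ) (t : ℝ), 0 ≤ t ∧ t ≤ 1 / 2 ∧
    3 ^ n * Cardinal.cantorFunction (1 / 3) f = m + t := by
  induction n with
  | zero =>
    intro f
    have h1 := Cardinal.cantorFunction_succ (c := 1 / 3) f (by norm_num) (by norm_num)
    have h2 := cf_bd fun n => f (n + 1)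
    refine ⟨cond (f 0) 1 0, 1 / 3 * Cardinal.cantorFunction (1 / 3) fun n => f (n + 1),
      by linarith [h2.1], by linarith [h2.2], ?_⟩
    rw [h1]; cases f 0 <;> simp
  | succ n ih =>
    intro f
    have h1 := Cardinal.cantorFunction_succ (c := 1 / 3) f (by norm_num) (by norm_num)
    obtain ⟨m, t, ht0, ht1, he⟩ := ih fun n => f (n + 1)
    refine ⟨3 ^ (n + 1) * cond (f 0) 1 0 + m, t, ht0, ht1, ?_⟩
    rw [h1, mul_add, pow_succ, show (3 : ℝ) ^ n * 3 * (1 / 3 * Cardinal.cantorFunction (1 / 3)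
      fun n => f (n + 1)) = 3 ^ n * Cardinal.cantorFunction (1 / 3) fun n => f (n + 1) by ring, he]
    cases f 0 <;> simp [pow_succ, add_assoc]

theorem exists_h : ∃ (h : ℝ → ℝ) (C : Set ℝ), ContDiff ℝ 1 h ∧ ¬ C.Countable ∧
    (∀ x ∈ C, h x = 0) ∧ ∀ x0 ∈ C, ∀ δ > 0, ∃ x, x0 < x ∧ x < x0 + δ ∧ (x - x0) ^ 2 ≤ h x := by
  refine ⟨h, range (Cardinal.cantorFunction (1 / 3)), h_smooth, ?_, ?_, ?_⟩
  · intro hc
    have hi := Cardinal.cantorFunction_injective (c := 1 / 3) (by norm_num) (by norm_num)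
    have : Countable (ℕ → Bool) := by
      have := (Set.countable_of_injective_of_countable_image (s := univ) hi.injOn
        (by simpa using hc))
      exact countable_univ_iff.1 this
    have h2 : Uncountable (ℕ → Bool) := by
      rw [← Cardinal.aleph0_lt_mk_iff]
      simp only [Cardinal.mk_pi, Cardinal.mk_bool, Cardinal.prod_const, Cardinal.lift_id,
        Cardinal.mk_nat, Cardinal.two_power_aleph0]
      exact Cardinal.aleph0_lt_continuum
    exact not_countable this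
  · rintro _ ⟨f, rfl⟩
    unfold h
    have : ∀ n : ℕ, (1 / 4 : ℝ) ^ n * b (3 ^ n * Cardinal.cantorFunction (1 / 3) f) = 0 := by
      intro n
      obtain ⟨m, t, ht0, ht1, he⟩ := cf_int n f
      rw [he, b_int, b_zero t ht0 ht1, mul_zero]
    simp only [this, tsum_zero]
  · rintro _ ⟨f, rfl⟩ δ hδ
    obtain ⟨n, hn⟩ := exists_pow_lt_of_lt_one hδ (show (1 / 3 : ℝ) < 1 by norm_num)
    obtain ⟨m, t, ht0, ht1, he⟩ := cf_int n f
    obtain ⟨x0, hx0⟩ : ∃ x0, x0 = Cardinal.cantorFunction (1 / 3) f := ⟨_, rfl⟩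
    rw [← hx0] at he ⊢
    have h3 : (0 : ℝ) < 3 ^ n := by positivity
    have hx : ((m : ℝ) + 3 / 4) / 3 ^ n - x0 = (3 / 4 - t) * (1 / 3) ^ n := by
      have : x0 = (m + t) / 3 ^ n := by rw [← he]; field_simp
      rw [this, one_div, inv_pow]; field_simp; ring
    have hp : (0 : ℝ) < (1 / 3) ^ n := by positivity
    refine ⟨(m + 3 / 4) / 3 ^ n, by nlinarith, by nlinarith, ?_⟩
    have h4 := (h_summ ((m + 3 / 4) / 3 ^ n)).le_tsum n
      (fun j _ => mul_nonneg (by positivity) (smoothTransition.nonneg _))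
    rw [mul_div_cancel₀ _ h3.ne', b_int, b_one, mul_one] at h4
    refine le_trans ?_ h4
    rw [hx, mul_pow, ← pow_mul, mul_comm n 2, pow_mul]
    have h5 : (((1 : ℝ) / 3) ^ 2) ^ n ≤ (1 / 4) ^ n :=
      pow_le_pow_left₀ (by positivity) (by norm_num) n
    have h6 : (3 / 4 - t) ^ 2 ≤ 1 := by nlinarith
    have h7 : (0 : ℝ) ≤ (((1 : ℝ) / 3) ^ 2) ^ n := by positivity
    nlinarith
end Pool.Agent.H.MP_5de00f_gt
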