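import Mathlib
import Pool.Agent.H.MP_5de00f_gt.A
set_option autoImplicit false
namespace Pool.Agent.H.MP_5de00f_gt
open Set Filter Topology Real
open scoped ContDiff

noncomputable def jet1 (f : ℝ → ℝ) (x : ℝ) : ℝ × ℝ × ℝ := (x, f x, deriv f x)

noncomputable def jet2 (f : ℝ → ℝ) (x : ℝ) : ℝ × ℝ × ℝ × ℝ :=
  (x, f x, deriv f x, deriv (deriv f) x)

def IsSub {E : Type} [NormedAddCommGroup E] [NormedSpace ℝ E] (r d : ℕ) (A : Set E) : Prop :=
  ∀ a ∈ A, ∃ (ψ : OpenPartialHomeomorph E E) (S : Submodule ℝ E), Module.finrank ℝ S = d ∧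
    a ∈ ψ.source ∧ ContDiffOn ℝ r ψ ψ.source ∧ ContDiffOn ℝ r ψ.symm ψ.target ∧
    ∀ x ∈ ψ.source, (x ∈ A ↔ ψ x ∈ S)

def tang {E : Type} [NormedAddCommGroup E] [NormedSpace ℝ E] (A : Set E) (b : E) :
    Submodule ℝ E :=
  Submodule.span ℝ {v | ∃ γ : ℝ → E, γ 0 = b ∧ (∀ᶠ t in 𝓝 0, γ t ∈ A) ∧ HasDerivAt γ v 0}

def tilde (A : Set (ℝ × ℝ × ℝ)) : Set (ℝ × ℝ × ℝ × ℝ) :=
  {z | ∃ (f : ℝ → ℝ) (x : ℝ), ContDiff ℝ ∞ f ∧ jet2 f x = z ∧ jet1 f x ∈ A ∧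
    LinearMap.range (fderiv ℝ (jet1 f) x).toLinearMap ⊔ tang A (jet1 f x) ≠ ⊤}

lemma jet1_deriv {f : ℝ → ℝ} (hf : ContDiff ℝ ∞ f) (x : ℝ) :
    HasDerivAt (jet1 f) (1, deriv f x, deriv (deriv f) x) x := by
  have h1 : Differentiable ℝ f := hf.differentiable (by simp)
  have h2 : Differentiable ℝ (deriv f) :=
    (contDiff_infty_iff_deriv.1 hf).2.differentiable (by simp)
  exact (hasDerivAt_id x).prodMk ((h1 x).hasDerivAt.prodMk (h2 x).hasDerivAt)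

lemma range_jet {f : ℝ → ℝ} (hf : ContDiff ℝ ∞ f) (x : ℝ) :
    LinearMap.range (fderiv ℝ (jet1 f) x).toLinearMap =
      Submodule.span ℝ {((1 : ℝ), deriv f x, deriv (deriv f) x)} := by
  rw [(jet1_deriv hf x).hasFDerivAt.fderiv]
  ext v
  simp only [LinearMap.mem_range, ContinuousLinearMap.coe_coe,
    ContinuousLinearMap.toSpanSingleton_apply, Submodule.mem_span_singleton]

lemma dfst {E F : Type} [NormedAddCommGroup E] [NormedSpace ℝ E] [NormedAddCommGroup F]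
    [NormedSpace ℝ F] {γ : ℝ → E × F} {v : E × F} {t : ℝ} (h : HasDerivAt γ v t) :
    HasDerivAt (fun t => (γ t).1) v.1 t :=
  (ContinuousLinearMap.fst ℝ E F).hasFDerivAt.comp_hasDerivAt t h

lemma dsnd {E F : Type} [NormedAddCommGroup E] [NormedSpace ℝ E] [NormedAddCommGroup F]
    [NormedSpace ℝ F] {γ : ℝ → E × F} {v : E × F} {t : ℝ} (h : HasDerivAt γ v t) :
    HasDerivAt (fun t => (γ t).2) v.2 t :=
  (ContinuousLinearMap.snd ℝ E F).hasFDerivAt.comp_hasDerivAt t h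

def gA (φ : ℝ → ℝ) : Set (ℝ × ℝ × ℝ) := {a | a.2.1 = a.2.2 ^ 2 / 2 + φ a.1}

lemma gA_sub {φ : ℝ → ℝ} (hφ : ContDiff ℝ 2 φ) : IsSub 2 2 (gA φ) := by
  intro a _
  have hc := hφ.continuous
  let e : (ℝ × ℝ × ℝ) ≃ₜ (ℝ × ℝ × ℝ) :=
    { toFun := fun a => (a.1, a.2.1 - (a.2.2 ^ 2 / 2 + φ a.1), a.2.2)
      invFun := fun a => (a.1, a.2.1 + (a.2.2 ^ 2 / 2 + φ a.1), a.2.2)
      left_inv := fun a => by simp
      right_inv := fun a => by simp
      continuous_toFun := by fun_prop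
      continuous_invFun := by fun_prop }
  let l : (ℝ × ℝ × ℝ) →ₗ[ℝ] ℝ := (LinearMap.fst ℝ ℝ ℝ).comp (LinearMap.snd ℝ ℝ (ℝ × ℝ))
  refine ⟨e.toOpenPartialHomeomorph, LinearMap.ker l, ?_, mem_univ _, ?_, ?_, ?_⟩
  · have h1 := l.finrank_range_add_finrank_ker
    have h2 : LinearMap.range l = ⊤ := LinearMap.range_eq_top.2 fun y => ⟨(0, y, 0), rfl⟩
    rw [h2] at h1
    simp at h1
    omega
  · have : ContDiff ℝ 2 fun a : ℝ × ℝ × ℝ => (a.1, a.2.1 - (a.2.2 ^ 2 / 2 + φ a.1), a.2.2) := by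
      fun_prop
    exact this.contDiffOn
  · have : ContDiff ℝ 2 fun a : ℝ × ℝ × ℝ => (a.1, a.2.1 + (a.2.2 ^ 2 / 2 + φ a.1), a.2.2) := by
      fun_prop
    exact this.contDiffOn
  · intro x _
    show x.2.1 = _ ↔ x.2.1 - (x.2.2 ^ 2 / 2 + φ x.1) = 0
    rw [sub_eq_zero]

lemma tang_gA {φ h : ℝ → ℝ} (hd : ∀ x, HasDerivAt φ (-h x) x) (a : ℝ × ℝ × ℝ) (ha : a ∈ gA φ)
    (v : ℝ × ℝ × ℝ) : v ∈ tang (gA φ) a ↔ v.2.1 = a.2.2 * v.2.2 - h a.1 * v.1 := by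
  constructor
  · intro hv
    induction hv using Submodule.span_induction with
    | mem v hv =>
      obtain ⟨γ, h0, hA, hγ⟩ := hv
      have g1 : HasDerivAt (fun t => (γ t).1) v.1 0 :=
        dfst hγ
      have g2 : HasDerivAt (fun t => (γ t).2) v.2 0 :=
        dsnd hγ
      have g21 : HasDerivAt (fun t => (γ t).2.1) v.2.1 0 :=
        dfst g2
      have g22 : HasDerivAt (fun t => (γ t).2.2) v.2.2 0 :=
        dsnd g2
      have g3 := ((g22.pow 2).div_const 2).add ((hd (γ 0).1).comp 0 g1)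
      have g4 : HasDerivAt (fun t => (γ t).2.1) _ 0 := g3.congr_of_eventuallyEq hA
      have := g21.unique g4
      rw [this, h0]; simp; ring
    | zero => simp
    | add x y _ _ hx hy => simp only [Prod.snd_add, Prod.fst_add, hx, hy]; ring
    | smul c x _ hx => simp only [Prod.smul_snd, Prod.smul_fst, smul_eq_mul, hx]; ring
  · intro hv
    apply Submodule.subset_span
    refine ⟨fun t => (a.1 + t * v.1, (a.2.2 + t * v.2.2) ^ 2 / 2 + φ (a.1 + t * v.1),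
      a.2.2 + t * v.2.2), ?_, Eventually.of_forall fun t => rfl, ?_⟩
    · have : a.2.1 = _ := ha
      ext <;> simp [this]
    · have g1 : HasDerivAt (fun t : ℝ => a.1 + t * v.1) v.1 0 := by
        simpa using ((hasDerivAt_id (0 : ℝ)).mul_const v.1).const_add a.1
      have g2 : HasDerivAt (fun t : ℝ => a.2.2 + t * v.2.2) v.2.2 0 := by
        simpa using ((hasDerivAt_id (0 : ℝ)).mul_const v.2.2).const_add a.2.2
      have g3 := ((g2.pow 2).div_const 2).add ((hd (a.1 + 0 * v.1)).comp 0 g1)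
      refine (g1.prodMk (g3.prodMk g2)).congr_deriv ?_
      ext <;> simp [hv]
      ring

lemma tilde_sub {φ h : ℝ → ℝ} (hd : ∀ x, HasDerivAt φ (-h x) x) (z : ℝ × ℝ × ℝ × ℝ)
    (hz : z ∈ tilde (gA φ)) : h z.1 = (z.2.2.2 - 1) * z.2.2.1 := by
  obtain ⟨f, x, hf, rfl, hA, hne⟩ := hz
  by_contra hcon
  apply hne
  rw [range_jet hf, eq_top_iff]
  intro v _
  simp only [jet2] at hcon
  have hG : h x - (deriv (deriv f) x - 1) * deriv f x ≠ 0 := sub_ne_zero.2 hcon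
  obtain ⟨c, hc⟩ : ∃ c, c * (h x - (deriv (deriv f) x - 1) * deriv f x) =
      v.2.1 - deriv f x * v.2.2 + h x * v.1 := ⟨_, div_mul_cancel₀ _ hG⟩
  have : v = c • ((1 : ℝ), deriv f x, deriv (deriv f) x) +
      (v - c • ((1 : ℝ), deriv f x, deriv (deriv f) x)) := by abel
  rw [this]
  refine Submodule.add_mem_sup (Submodule.mem_span_singleton.2 ⟨c, rfl⟩) ?_
  rw [tang_gA hd _ hA]
  simp only [jet1, Prod.snd_sub, Prod.fst_sub, Prod.smul_snd, Prod.smul_fst, smul_eq_mul]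
  linear_combination -hc

lemma bad_mem {φ h : ℝ → ℝ} (hd : ∀ x, HasDerivAt φ (-h x) x) (x : ℝ) (hx : h x = 0) :
    (x, φ x, (0 : ℝ), (1 : ℝ)) ∈ tilde (gA φ) := by
  have hf : ContDiff ℝ ∞ fun t : ℝ => φ x + (t - x) ^ 2 / 2 := by fun_prop
  have h1 : deriv (fun t : ℝ => φ x + (t - x) ^ 2 / 2) = fun t => t - x := by
    ext t
    have := ((((hasDerivAt_id t).sub_const x).pow 2).div_const 2).const_add (φ x)
    refine (this.deriv).trans ?_
    simp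
  have h2 : deriv (fun t : ℝ => t - x) x = 1 := ((hasDerivAt_id x).sub_const x).deriv
  have hA : jet1 (fun t : ℝ => φ x + (t - x) ^ 2 / 2) x ∈ gA φ := by
    simp [jet1, gA, h1]
  refine ⟨_, x, hf, by simp [jet2, h1, h2], hA, ?_⟩
  rw [range_jet hf]
  intro htop
  have hle : Submodule.span ℝ {((1 : ℝ), deriv (fun t : ℝ => φ x + (t - x) ^ 2 / 2) x,
      deriv (deriv fun t : ℝ => φ x + (t - x) ^ 2 / 2) x)} ≤
      tang (gA φ) (jet1 (fun t : ℝ => φ x + (t - x) ^ 2 / 2) x) := by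
    rw [Submodule.span_singleton_le_iff_mem, tang_gA hd _ hA]
    simp [jet1, h1, hx]
  rw [sup_eq_right.2 hle] at htop
  have : ((0 : ℝ), (1 : ℝ), (0 : ℝ)) ∈
      tang (gA φ) (jet1 (fun t : ℝ => φ x + (t - x) ^ 2 / 2) x) := by rw [htop]; trivial
  rw [tang_gA hd _ hA] at this
  simp at this

lemma curve_in {E : Type} [NormedAddCommGroup E] [NormedSpace ℝ E] [FiniteDimensional ℝ E]
    {d : ℕ} {M : Set E} (hM : IsSub 1 d M) {β : ℝ → E} {w : E} {x0 : ℝ}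
    (hβ : HasDerivAt β w x0) (h0 : β x0 ∈ M) (hacc : ∃ᶠ x in 𝓝[≠] x0, β x ∈ M) :
    ∃ γ : ℝ → E, γ 0 = β x0 ∧ (∀ᶠ t in 𝓝 0, γ t ∈ M ∧ ContinuousAt γ t) ∧ HasDerivAt γ w 0 := by
  obtain ⟨ψ, S, -, hs, h1, h2, hS⟩ := hM _ h0
  have hψ : HasFDerivAt ψ (fderiv ℝ ψ (β x0)) (β x0) :=
    ((h1.contDiffAt (ψ.open_source.mem_nhds hs)).differentiableAt (by simp)).hasFDerivAt
  have ht := ψ.map_source hs
  have hψ' : HasFDerivAt ψ.symm (fderiv ℝ ψ.symm (ψ (β x0))) (ψ (β x0)) :=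
    ((h2.contDiffAt (ψ.open_target.mem_nhds ht)).differentiableAt (by simp)).hasFDerivAt
  obtain ⟨u, hu⟩ : ∃ u, u = fderiv ℝ ψ (β x0) w := ⟨_, rfl⟩
  have hc : HasDerivAt (ψ ∘ β) u x0 := hu ▸ hψ.comp_hasDerivAt x0 hβ
  have hev : ∀ᶠ x in 𝓝 x0, β x ∈ ψ.source := hβ.continuousAt (ψ.open_source.mem_nhds hs)
  have huS : u ∈ S := by
    have h3 := hasDerivAt_iff_tendsto_slope.1 hc
    have h4 : ∃ᶠ x in 𝓝[≠] x0, slope (ψ ∘ β) x0 x ∈ S := by
      refine (hacc.and_eventually (hev.filter_mono nhdsWithin_le_nhds)).mono ?_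
      rintro x ⟨a, b⟩
      rw [slope_def_module]
      exact S.smul_mem _ (S.sub_mem ((hS _ b).1 a) ((hS _ hs).1 h0))
    exact S.closed_of_finiteDimensional.mem_of_frequently_of_tendsto h4 h3
  have hl : HasDerivAt (fun t : ℝ => ψ (β x0) + t • u) u 0 := by
    simpa using ((hasDerivAt_id (0 : ℝ)).smul_const u).const_add (ψ (β x0))
  have hback : fderiv ℝ ψ.symm (ψ (β x0)) u = w := by
    have h5 : HasDerivAt (ψ.symm ∘ (ψ ∘ β)) (fderiv ℝ ψ.symm (ψ (β x0)) u) x0 :=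
      hψ'.comp_hasDerivAt x0 hc
    have h6 : HasDerivAt β (fderiv ℝ ψ.symm (ψ (β x0)) u) x0 :=
      h5.congr_of_eventuallyEq (hev.mono fun x hx => (ψ.left_inv hx).symm)
    exact h6.unique hβ
  have hcl : Continuous fun t : ℝ => ψ (β x0) + t • u := by fun_prop
  refine ⟨fun t => ψ.symm (ψ (β x0) + t • u), by simp [ψ.left_inv hs], ?_, ?_⟩
  · have : ∀ᶠ t : ℝ in 𝓝 0, ψ (β x0) + t • u ∈ ψ.target :=
      hcl.continuousAt (ψ.open_target.mem_nhds (by simpa using ht))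
    refine this.mono fun t h => ⟨?_, ?_⟩
    · rw [hS _ (ψ.map_target h), ψ.right_inv h]
      exact S.add_mem ((hS _ hs).1 h0) (S.smul_mem _ huS)
    · exact ContinuousAt.comp (f := fun t : ℝ => ψ (β x0) + t • u) (ψ.continuousAt_symm h)
        hcl.continuousAt
  · rw [← hback]
    have h7 : HasFDerivAt ψ.symm (fderiv ℝ ψ.symm (ψ (β x0))) (ψ (β x0) + (0 : ℝ) • u) := by
      simpa using hψ'
    exact h7.comp_hasDerivAt (f := fun t : ℝ => ψ (β x0) + t • u) 0 hl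

lemma no_curve {h : ℝ → ℝ} {x0 : ℝ}
    (hx : ∀ δ > 0, ∃ x, x0 < x ∧ x < x0 + δ ∧ (x - x0) ^ 2 ≤ h x)
    {X p s : ℝ → ℝ} (hX : HasDerivAt X 1 0) (hX0 : X 0 = x0) (hp : HasDerivAt p 0 0)
    (hp0 : p 0 = 0) (hs : HasDerivAt s 0 0) (hs0 : s 0 = 1)
    (hev : ∀ᶠ t in 𝓝 0, h (X t) = (s t - 1) * p t ∧ ContinuousAt X t) : False := by
  have e1 := hX.isLittleO.def (c := 1 / 2) (by norm_num)
  have e2 := hp.isLittleO.def (c := 1 / 4) (by norm_num)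
  have e3 := hs.isLittleO.def (c := 1 / 4) (by norm_num)
  obtain ⟨δ, hδ, hb⟩ := Metric.eventually_nhds_iff.1 (hev.and (e1.and (e2.and e3)))
  obtain ⟨x, h1, h2, h3⟩ := hx (δ / 4) (by positivity)
  have hin : ∀ t ∈ Icc 0 (2 * (x - x0)), dist t 0 < δ := by
    intro t ht
    rw [Real.dist_eq, sub_zero, abs_of_nonneg ht.1]; linarith [ht.2]
  have hc : ContinuousOn X (Icc 0 (2 * (x - x0))) :=
    fun t ht => (hb (hin t ht)).1.2.continuousWithinAt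
  have hpos : 0 ≤ 2 * (x - x0) := by linarith
  have hmem : x ∈ Icc (X 0) (X (2 * (x - x0))) := by
    refine ⟨by rw [hX0]; exact h1.le, ?_⟩
    have := (hb (hin _ ⟨hpos, le_rfl⟩)).2.1
    simp only [sub_zero, smul_eq_mul, mul_one, Real.norm_eq_abs, hX0, abs_of_nonneg hpos] at this
    have := (abs_le.1 this).1
    linarith
  obtain ⟨t, ht, hXt⟩ := intermediate_value_Icc hpos hc hmem
  obtain ⟨⟨a1, -⟩, -, a2, a3⟩ := hb (hin t ht)
  simp only [sub_zero, smul_zero, Real.norm_eq_abs, hp0, hs0, abs_of_nonneg ht.1] at a2 a3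
  rw [hXt] at a1
  have a4 : (s t - 1) * p t ≤ (1 / 4 * t) * (1 / 4 * t) := by
    refine le_trans (le_abs_self _) ?_
    rw [abs_mul]
    exact mul_le_mul a3 a2 (abs_nonneg _) (by linarith [ht.1])
  have a5 : t * t ≤ (2 * (x - x0)) * (2 * (x - x0)) := mul_self_le_mul_self ht.1 ht.2
  have a6 : 0 < (x - x0) ^ 2 := by have : 0 < x - x0 := by linarith
                                   positivity
  nlinarith

theorem main : ∃ A : Set (ℝ × ℝ × ℝ), IsSub 2 2 A ∧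
    ∀ 𝓜 : Set (Set (ℝ × ℝ × ℝ × ℝ)), 𝓜.Countable → (∀ M ∈ 𝓜, ∃ d, IsSub 1 d M) →
      ⋃₀ 𝓜 ≠ tilde A := by
  obtain ⟨h, C, hh, hC, hz, hx⟩ := exists_h
  have hc := hh.continuous
  obtain ⟨φ, hd⟩ : ∃ φ : ℝ → ℝ, ∀ x, HasDerivAt φ (-h x) x :=
    ⟨fun x => ∫ t in (0 : ℝ)..x, -h t, fun x =>
      (hc.neg.integral_hasStrictDerivAt 0 x).hasDerivAt⟩
  have hφ : ContDiff ℝ 2 φ := by
    rw [show (2 : WithTop ℕ∞) = 1 + 1 from rfl, contDiff_succ_iff_deriv]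
    refine ⟨fun x => (hd x).differentiableAt, by simp, ?_⟩
    have : deriv φ = fun x => -h x := funext fun x => (hd x).deriv
    rw [this]; exact hh.neg
  refine ⟨gA φ, gA_sub hφ, fun 𝓜 hcount hsub heq => hC ?_⟩
  have key : ∀ M ∈ 𝓜, {x ∈ C | (x, φ x, (0 : ℝ), (1 : ℝ)) ∈ M}.Countable := by
    intro M hM
    obtain ⟨d, hd'⟩ := hsub M hM
    have : DiscreteTopology {x ∈ C | (x, φ x, (0 : ℝ), (1 : ℝ)) ∈ M} := by
      rw [discreteTopology_subtype_iff]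
      rintro x0 ⟨hx0, hxM⟩
      by_contra hne
      have hfr : ∃ᶠ x in 𝓝[≠] x0, (x, φ x, (0 : ℝ), (1 : ℝ)) ∈ M :=
        (frequently_iff_neBot.2 ⟨hne⟩).mono fun x hx => hx.2
      have hβ : HasDerivAt (fun x => (x, φ x, (0 : ℝ), (1 : ℝ))) (1, -h x0, 0, 0) x0 :=
        (hasDerivAt_id x0).prodMk ((hd x0).prodMk
          ((hasDerivAt_const x0 _).prodMk (hasDerivAt_const x0 _)))
      obtain ⟨γ, g0, g1, g2⟩ := curve_in hd' hβ hxM hfr
      refine no_curve (hx x0 hx0) (dfst g2) (by simp [g0]) (dfst (dsnd (dsnd g2)))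
        (by simp [g0]) (dsnd (dsnd (dsnd g2))) (by simp [g0]) (g1.mono fun t ht => ⟨?_, ?_⟩)
      · exact tilde_sub hd _ (heq ▸ ⟨M, hM, ht.1⟩)
      · exact continuous_fst.continuousAt.comp ht.2
    exact countable_coe_iff.1 countable_of_Lindelof_of_discrete
  refine (hcount.biUnion key).mono fun x hxC => ?_
  have := bad_mem hd x (hz x hxC)
  rw [← heq] at this
  obtain ⟨M, hM, hm⟩ := this
  exact mem_biUnion hM ⟨hxC, hm⟩

end Pool.Agent.H.MP_5de00f_gt
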